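import Pool.Agent.Q140.Bike.Track

/-!
# Closed rear tracks over strictly convex front tracks have rotation number one
-/

namespace Pool.Agent.Results.MP_b4625f_gt.RotationNumberOne

open Pool.Agent.Q140.Bike

/-- Let `Γ = (X, Y)` be a smooth, simple, strictly convex closed front track of length `L`,
parametrised by arc length and oriented counterclockwise, and let `ℓ > 0`.  Let `θ` be a solution
of the bicycle equation `ℓ θ' = X' sin θ - Y' cos θ` with `θ(L) - θ(0) ∈ 2πℤ`, that is, a closed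
rear track.  Then its rotation number `(θ(L) - θ(0)) / 2π` is `1`. -/
theorem result (L : ℝ) (X Y : ℝ → ℝ) (hΓ : ConvexTrack L X Y) (l : ℝ) (hl : 0 < l)
    (θ : ℝ → ℝ)
    (hθ : ∀ t, HasDerivAt θ
      ((deriv X t * Real.sin (θ t) - deriv Y t * Real.cos (θ t)) / l) t)
    (hclosed : ∃ k : ℤ, θ L - θ 0 = 2 * Real.pi * k) :
    (θ L - θ 0) / (2 * Real.pi) = 1 := by
  obtain ⟨k, hk⟩ := hclosed
  obtain ⟨φ, hF, hφ⟩ := hΓ.exists_angle
  have hθ' : ∀ t, HasDerivAt θ (l⁻¹ * Real.sin (θ t - φ t)) t := by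
    intro t
    have := hθ t
    rwa [(hφ t).1, (hφ t).2, show (Real.cos (φ t) * Real.sin (θ t) -
      Real.sin (φ t) * Real.cos (θ t)) / l = l⁻¹ * Real.sin (θ t - φ t) by
        rw [Real.sin_sub]; ring] at this
  have h1 := rot_one hF (inv_pos.2 hl) hθ' (k := k) (by linarith)
  rw [hk, h1]
  have := Real.pi_pos
  field_simp
  norm_num

end Pool.Agent.Results.MP_b4625f_gt.RotationNumberOne
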